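import Pool.Agent.W163.P3.Stm

set_option autoImplicit false
open Finset

namespace Pool.Agent.W131.P3

open Pool.Agent.W163.P3

lemma pc_le (a b c : ℕ) : pc a b c ≤ 1 := by unfold pc; split_ifs <;> omega

lemma pc_swap (a b c c' : ℕ) (h : Pr c c') : pc a b c = pc b a c' := by
  unfold pc
  rcases h with ⟨h1, h2⟩ | ⟨h1, h2⟩ | ⟨h1, h2⟩ <;> subst h1 <;> subst h2 <;> simp <;>
    (congr 1; apply propext; omega)

lemma Ori.lt {V : Type} {r : V → V → ℕ} (h : Ori r) (x y : V) : r x y < 3 := by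
  rcases h x y with ⟨h1, _⟩ | ⟨h1, _⟩ | ⟨h1, _⟩ <;> omega

lemma Ori.diag {V : Type} {r : V → V → ℕ} (h : Ori r) (x : V) : r x x = 0 := by
  rcases h x x with ⟨h1, _⟩ | ⟨h1, h2⟩ | ⟨h1, h2⟩ <;> omega

/-- symmetric under swapping the first two vertices -/
lemma f12 {V : Type} {r : V → V → ℕ} (h : Ori r) (x y z : V) :
    pc (r x y) (r x z) (r y z) = pc (r y x) (r y z) (r x z) := by
  unfold pc
  rcases h x y with ⟨h1, h2⟩ | ⟨h1, h2⟩ | ⟨h1, h2⟩ <;>
  rcases h x z with ⟨h3, h4⟩ | ⟨h3, h4⟩ | ⟨h3, h4⟩ <;>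
  rcases h y z with ⟨h5, h6⟩ | ⟨h5, h6⟩ | ⟨h5, h6⟩ <;>
  simp [h1, h2, h3, h5]

lemma f23 {V : Type} {r : V → V → ℕ} (h : Ori r) (x y z : V) :
    pc (r x y) (r x z) (r y z) = pc (r x z) (r x y) (r z y) := by
  unfold pc
  rcases h x y with ⟨h1, h2⟩ | ⟨h1, h2⟩ | ⟨h1, h2⟩ <;>
  rcases h x z with ⟨h3, h4⟩ | ⟨h3, h4⟩ | ⟨h3, h4⟩ <;>
  rcases h y z with ⟨h5, h6⟩ | ⟨h5, h6⟩ | ⟨h5, h6⟩ <;>
  simp [h1, h3, h5, h6]

lemma fdiag {V : Type} {r : V → V → ℕ} (h : Ori r) (x z : V) :
    pc (r x x) (r x z) (r x z) = 0 := by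
  unfold pc
  rw [Ori.diag h x]
  rcases h x z with ⟨h3, h4⟩ | ⟨h3, h4⟩ | ⟨h3, h4⟩ <;> simp [h3]

lemma fdiag2 {V : Type} {r : V → V → ℕ} (h : Ori r) (x z : V) :
    pc (r x z) (r x x) (r z x) = 0 := by
  rw [← f23 h, fdiag h]

lemma fdiag3 {V : Type} {r : V → V → ℕ} (h : Ori r) (x z : V) :
    pc (r x z) (r x z) (r z z) = 0 := by
  rw [f12 h, ]
  rw [fdiag2 h]

/-- triples avoiding `v` -/
def off {V : Type} [Fintype V] [DecidableEq V] (r : V → V → ℕ) (v : V) : ℕ :=
  ∑ x, ∑ y, ∑ z, if x ≠ v ∧ y ≠ v ∧ z ≠ v then pc (r x y) (r x z) (r y z) else 0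

lemma TS_split {V : Type} [Fintype V] [DecidableEq V] {r : V → V → ℕ} (h : Ori r) (v : V) :
    TS r univ = off r v + 3 * tph r (r v) := by
  have key : ∀ x y z : V, pc (r x y) (r x z) (r y z)
      = (if x ≠ v ∧ y ≠ v ∧ z ≠ v then pc (r x y) (r x z) (r y z) else 0)
        + (if x = v then pc (r v y) (r v z) (r y z) else 0)
        + (if y = v then pc (r v x) (r v z) (r x z) else 0)
        + (if z = v then pc (r v x) (r v y) (r x y) else 0) := by
    intro x y z
    by_cases hx : x = v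
    · subst hx
      by_cases hy : y = x
      · subst hy
        by_cases hz : z = y
        · subst hz; simp [fdiag h]
        · simp [hz, fdiag h]
      · by_cases hz : z = x
        · subst hz; simp [hy, fdiag2 h, fdiag h]
        · simp [hy, hz]
    · by_cases hy : y = v
      · subst hy
        by_cases hz : z = y
        · subst hz; simp [hx, fdiag h, fdiag2 h, fdiag3 h]
        · simp [hx, hz, f12 h x y z]
      · by_cases hz : z = v
        · subst hz
          simp [hx, hy]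
          rw [f23 h x y z, f12 h x z y]
        · simp [hx, hy, hz]
  unfold TS off
  calc ∑ x, ∑ y, ∑ z, pc (r x y) (r x z) (r y z)
      = ∑ x, ∑ y, ∑ z, ((if x ≠ v ∧ y ≠ v ∧ z ≠ v then pc (r x y) (r x z) (r y z) else 0)
        + (if x = v then pc (r v y) (r v z) (r y z) else 0)
        + (if y = v then pc (r v x) (r v z) (r x z) else 0)
        + (if z = v then pc (r v x) (r v y) (r x y) else 0)) := by
        refine sum_congr rfl (fun x _ => sum_congr rfl (fun y _ => sum_congr rfl (fun z _ => ?_)))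
        exact key x y z
    _ = (∑ x, ∑ y, ∑ z, (if x ≠ v ∧ y ≠ v ∧ z ≠ v then pc (r x y) (r x z) (r y z) else 0))
        + (∑ x, ∑ y, ∑ z, (if x = v then pc (r v y) (r v z) (r y z) else 0))
        + (∑ x, ∑ y, ∑ z, (if y = v then pc (r v x) (r v z) (r x z) else 0))
        + (∑ x, ∑ y, ∑ z, (if z = v then pc (r v x) (r v y) (r x y) else 0)) := by
        simp only [sum_add_distrib]
    _ = (∑ x, ∑ y, ∑ z, (if x ≠ v ∧ y ≠ v ∧ z ≠ v then pc (r x y) (r x z) (r y z) else 0))
        + tph r (r v) + tph r (r v) + tph r (r v) := by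
        have e1 : (∑ x, ∑ y, ∑ z, (if x = v then pc (r v y) (r v z) (r y z) else 0))
            = tph r (r v) := by
          unfold tph
          rw [Finset.sum_eq_single v]
          · simp
          · intro b _ hb; simp [hb]
          · simp
        have e2 : (∑ x, ∑ y, ∑ z, (if y = v then pc (r v x) (r v z) (r x z) else 0))
            = tph r (r v) := by
          unfold tph
          refine sum_congr rfl (fun x _ => ?_)
          rw [Finset.sum_eq_single v]
          · simp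
          · intro b _ hb; simp [hb]
          · simp
        have e3 : (∑ x, ∑ y, ∑ z, (if z = v then pc (r v x) (r v y) (r x y) else 0))
            = tph r (r v) := by
          unfold tph
          refine sum_congr rfl (fun x _ => sum_congr rfl (fun y _ => ?_))
          simp
        rw [e1, e2, e3]
    _ = _ := by ring

lemma TS_sum {V : Type} [Fintype V] (r : V → V → ℕ) : TS r univ = ∑ v, tph r (r v) := rfl

lemma TS_le {V : Type} (r : V → V → ℕ) (X : Finset V) : TS r X ≤ X.card ^ 3 := by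
  unfold TS
  calc ∑ x ∈ X, ∑ y ∈ X, ∑ z ∈ X, pc (r x y) (r x z) (r y z)
      ≤ ∑ x ∈ X, ∑ y ∈ X, ∑ z ∈ X, 1 := by
        refine sum_le_sum (fun x _ => sum_le_sum (fun y _ => sum_le_sum (fun z _ => pc_le _ _ _)))
    _ = X.card ^ 3 := by simp; ring

/-- replace the row and column of `v` -/
def rep {V : Type} [DecidableEq V] (r : V → V → ℕ) (v : V) (φ : V → ℕ) : V → V → ℕ :=
  fun x y => if x = v then (if y = v then 0 else φ y) else
    if y = v then (if φ x = 1 then 2 else if φ x = 2 then 1 else 0) else r x y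

lemma rep_ori {V : Type} [DecidableEq V] {r : V → V → ℕ} (h : Ori r) (v : V) (φ : V → ℕ)
    (hφ : ∀ w, φ w < 3) : Ori (rep r v φ) := by
  intro x y
  unfold rep
  by_cases hx : x = v
  · by_cases hy : y = v
    · simp [hx, hy, Pr]
    · have := hφ y
      simp only [hx, hy, if_true, if_false]
      unfold Pr
      have : φ y = 0 ∨ φ y = 1 ∨ φ y = 2 := by omega
      rcases this with h1 | h1 | h1 <;> simp [h1]
  · by_cases hy : y = v
    · simp only [hx, hy, if_true, if_false]
      have := hφ x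
      unfold Pr
      have : φ x = 0 ∨ φ x = 1 ∨ φ x = 2 := by omega
      rcases this with h1 | h1 | h1 <;> simp [h1]
    · simp only [hx, hy, if_false]
      exact h x y

lemma rep_off {V : Type} [Fintype V] [DecidableEq V] (r : V → V → ℕ) (v : V) (φ : V → ℕ) :
    off (rep r v φ) v = off r v := by
  unfold off
  refine sum_congr rfl (fun x _ => sum_congr rfl (fun y _ => sum_congr rfl (fun z _ => ?_)))
  by_cases hx : x = v
  · simp [hx]
  by_cases hy : y = v
  · simp [hy]
  by_cases hz : z = v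
  · simp [hz]
  simp [rep, hx, hy, hz]

lemma rep_tph {V : Type} [Fintype V] [DecidableEq V] (r : V → V → ℕ) (v : V) (φ : V → ℕ) :
    tph r φ ≤ tph (rep r v φ) (rep r v φ v) + 2 * Fintype.card V := by
  unfold tph
  calc ∑ y, ∑ z, pc (φ y) (φ z) (r y z)
      ≤ ∑ y, ∑ z, (pc (rep r v φ v y) (rep r v φ v z) (rep r v φ y z)
          + (if y = v then 1 else 0) + (if z = v then 1 else 0)) := by
        refine sum_le_sum (fun y _ => sum_le_sum (fun z _ => ?_))
        by_cases hy : y = v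
        · have := pc_le (φ y) (φ z) (r y z)
          simp only [hy, if_true]
          rw [hy] at this
          omega
        by_cases hz : z = v
        · have := pc_le (φ y) (φ z) (r y z)
          simp only [hz, if_true]
          rw [hz] at this
          omega
        simp [rep, hy, hz]
    _ = _ := by
        simp only [sum_add_distrib]
        simp
        ring

/-- reindexing -/
lemma TS_map {V W : Type} [Fintype V] [Fintype W] (e : W ≃ V) (r : V → V → ℕ) :
    TS (fun i j => r (e i) (e j)) univ = TS r univ := by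
  unfold TS
  rw [← Equiv.sum_comp e (fun x => ∑ y, ∑ z, pc (r x y) (r x z) (r y z))]
  refine sum_congr rfl (fun x _ => ?_)
  rw [← Equiv.sum_comp e (fun y => ∑ z, pc (r (e x) y) (r (e x) z) (r y z))]
  refine sum_congr rfl (fun y _ => ?_)
  rw [← Equiv.sum_comp e (fun z => pc (r (e x) (e y)) (r (e x) z) (r (e y) z))]

lemma TS_sub {V : Type} (r : V → V → ℕ) (X : Finset V) :
    TS (fun i j : X => r i j) univ = TS r X := by
  unfold TS
  rw [← Finset.sum_coe_sort X]
  refine sum_congr rfl (fun x _ => ?_)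
  rw [← Finset.sum_coe_sort X]
  refine sum_congr rfl (fun y _ => ?_)
  rw [← Finset.sum_coe_sort X]

lemma set_bdd : BddAbove {x : ℝ | ∃ (n : ℕ) (r : Fin n → Fin n → ℕ), 0 < n ∧ Ori r ∧
    x = (TS r univ : ℝ) / (n : ℝ) ^ 3} := by
  refine ⟨1, ?_⟩
  rintro x ⟨n, r, hn, _, rfl⟩
  rw [div_le_one (by positivity)]
  have := TS_le r univ
  rw [card_univ, Fintype.card_fin] at this
  exact_mod_cast this

lemma le_PI {n : ℕ} (hn : 0 < n) (r : Fin n → Fin n → ℕ) (h : Ori r) :
    (TS r univ : ℝ) ≤ PI * (n : ℝ) ^ 3 := by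
  have : (TS r univ : ℝ) / (n : ℝ) ^ 3 ≤ PI := le_csSup set_bdd ⟨n, r, hn, h, rfl⟩
  rwa [div_le_iff₀ (by positivity)] at this

lemma le_PI' {V : Type} [Fintype V] (hn : 0 < Fintype.card V) (r : V → V → ℕ) (h : Ori r) :
    (TS r univ : ℝ) ≤ PI * (Fintype.card V : ℝ) ^ 3 := by
  classical
  have := le_PI hn (fun i j => r ((Fintype.equivFin V).symm i) ((Fintype.equivFin V).symm j))
    (fun x y => h _ _)
  rwa [TS_map] at this

lemma PI_nonneg : 0 ≤ PI := by
  have := le_PI (n := 1) (by norm_num) (fun _ _ => 0) (fun x y => Or.inl ⟨rfl, rfl⟩)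
  have h2 : (0 : ℝ) ≤ (TS (fun _ _ : Fin 1 => 0) univ : ℝ) := Nat.cast_nonneg _
  simp only [Nat.cast_one, one_pow, mul_one] at this
  linarith

lemma PI_le_one : PI ≤ 1 := by
  refine csSup_le ?_ ?_
  · exact ⟨_, 1, fun _ _ => 0, by norm_num, fun x y => Or.inl ⟨rfl, rfl⟩, rfl⟩
  · rintro x ⟨n, r, hn, _, rfl⟩
    rw [div_le_one (by positivity)]
    have := TS_le r univ
    rw [card_univ, Fintype.card_fin] at this
    exact_mod_cast this

lemma cap {V : Type} (r : V → V → ℕ) (h : Ori r) (X : Finset V) :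
    (TS r X : ℝ) ≤ PI * (X.card : ℝ) ^ 3 := by
  rcases X.eq_empty_or_nonempty with hX | hX
  · subst hX; simp [TS]
  · have := le_PI' (V := X) (by rw [Fintype.card_coe]; exact card_pos.mpr hX)
      (fun i j : X => r i j) (fun x y => h _ _)
    rwa [TS_sub, Fintype.card_coe] at this

lemma TS_blow {V I : Type} [Fintype V] [Fintype I] (r : V → V → ℕ) :
    TS (fun a b : V × I => r a.1 b.1) univ = (Fintype.card I) ^ 3 * TS r univ := by
  unfold TS
  simp only [Fintype.sum_prod_type, sum_const, card_univ, smul_eq_mul, ← mul_sum]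
  ring

theorem t_EXT : S_EXT := by
  intro e he
  -- near-extremal graph
  obtain ⟨x, ⟨n0, r0, hn0, h0, hx⟩, hx2⟩ :=
    exists_lt_of_lt_csSup (s := {x : ℝ | ∃ (n : ℕ) (r : Fin n → Fin n → ℕ), 0 < n ∧ Ori r ∧
      x = (TS r univ : ℝ) / (n : ℝ) ^ 3})
      ⟨_, 1, fun _ _ => 0, by norm_num, fun x y => Or.inl ⟨rfl, rfl⟩, rfl⟩
      (show PI - e / 2 < PI by linarith)
  -- size
  obtain ⟨m, hm⟩ := exists_nat_gt (4 / e)
  have hmpos : 0 < m := by
    have : (0 : ℝ) < m := lt_trans (by positivity) hm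
    exact_mod_cast this
  set n := n0 * m with hn
  have hnpos : 0 < n := Nat.mul_pos hn0 hmpos
  have hnbig : (4 / e : ℝ) ≤ n := by
    have : (m : ℝ) ≤ n := by
      rw [hn]
      exact_mod_cast Nat.le_mul_of_pos_left m hn0
    linarith
  have hden : ∃ r : Fin n → Fin n → ℕ, Ori r ∧ (PI - e / 2) * (n : ℝ) ^ 3 ≤ (TS r univ : ℝ) := by
    refine ⟨fun i j => r0 (finProdFinEquiv.symm i).1 (finProdFinEquiv.symm j).1, ?_, ?_⟩
    · intro i j; exact h0 _ _
    · have h1 := TS_map (finProdFinEquiv (m := n0) (n := m)).symm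
        (fun a b : Fin n0 × Fin m => r0 a.1 b.1)
      have h2 := TS_blow (I := Fin m) r0
      rw [h2, Fintype.card_fin] at h1
      rw [h1]
      rw [hn]
      push_cast
      rw [hx, lt_div_iff₀ (by positivity)] at hx2
      have : (0 : ℝ) ≤ (m : ℝ) ^ 3 := by positivity
      nlinarith [mul_le_mul_of_nonneg_right hx2.le this]
  -- maximal graph
  set S : Set ℕ := {t | ∃ r : Fin n → Fin n → ℕ, Ori r ∧ TS r univ = t} with hS
  have hSb : BddAbove S := by
    refine ⟨n ^ 3, ?_⟩
    rintro t ⟨r, _, rfl⟩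
    have := TS_le r univ
    rwa [card_univ, Fintype.card_fin] at this
  have hSn : S.Nonempty := ⟨_, fun _ _ => 0, fun x y => Or.inl ⟨rfl, rfl⟩, rfl⟩
  obtain ⟨r, hr, hrt⟩ := Nat.sSup_mem hSn hSb
  have hmax : ∀ r' : Fin n → Fin n → ℕ, Ori r' → TS r' univ ≤ TS r univ := by
    intro r' h'
    rw [hrt]
    exact le_csSup hSb ⟨r', h', rfl⟩
  have hbig : (PI - e / 2) * (n : ℝ) ^ 3 ≤ (TS r univ : ℝ) := by
    obtain ⟨r1, h1, h2⟩ := hden
    have : (TS r1 univ : ℝ) ≤ TS r univ := by exact_mod_cast hmax r1 h1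
    linarith
  -- main comparison
  have main : ∀ (v : Fin n) (φ : Fin n → ℕ), (∀ w, φ w < 3) →
      tph r φ ≤ tph r (r v) + 2 * n := by
    intro v φ hφ
    have h1 := hmax (rep r v φ) (rep_ori hr v φ hφ)
    rw [TS_split (rep_ori hr v φ hφ) v, TS_split hr v, rep_off] at h1
    have h2 := rep_tph r v φ
    rw [Fintype.card_fin] at h2
    omega
  have hsum : (TS r univ : ℝ) = ∑ v, (tph r (r v) : ℝ) := by
    rw [TS_sum]; push_cast; rfl
  have hn2 : (2 : ℝ) * n ≤ (e / 2) * (n : ℝ) ^ 2 := by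
    have h1 : 4 ≤ e * n := by
      rw [div_le_iff₀ he] at hnbig
      linarith
    have h2 : (0 : ℝ) ≤ n := Nat.cast_nonneg _
    nlinarith
  have hnR : (0 : ℝ) < n := by exact_mod_cast hnpos
  refine ⟨n, hnpos, r, hr, fun X => cap r hr X, ?_, ?_, ?_⟩
  · rw [Fintype.card_fin]
    have : (0 : ℝ) ≤ (n : ℝ) ^ 3 := by positivity
    nlinarith
  · intro v
    rw [Fintype.card_fin]
    have hex : ∃ u, (PI - e / 2) * (n : ℝ) ^ 2 ≤ (tph r (r u) : ℝ) := by
      by_contra hcon
      push Not at hcon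
      have : ∑ u : Fin n, (tph r (r u) : ℝ) < ∑ u : Fin n, (PI - e / 2) * (n : ℝ) ^ 2 := by
        apply sum_lt_sum_of_nonempty
        · exact ⟨⟨0, hnpos⟩, mem_univ _⟩
        · intro i _; exact hcon i
      rw [← hsum] at this
      simp at this
      nlinarith
    obtain ⟨u, hu⟩ := hex
    have h1 := main v (r u) (fun w => Ori.lt hr u w)
    have h2 : (tph r (r u) : ℝ) ≤ tph r (r v) + 2 * n := by exact_mod_cast h1
    nlinarith
  · intro φ hφ
    rw [Fintype.card_fin]
    have h1 : ∑ v : Fin n, (tph r φ : ℝ) ≤ ∑ v : Fin n, ((tph r (r v) : ℝ) + 2 * n) := by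
      refine sum_le_sum (fun v _ => ?_)
      exact_mod_cast main v φ hφ
    rw [sum_add_distrib, ← hsum] at h1
    simp at h1
    have h3 := le_PI hnpos r hr
    have h4 : (n : ℝ) * (tph r φ : ℝ) ≤ n * ((PI + e) * (n : ℝ) ^ 2) := by
      have : (n : ℝ) * (2 * n) ≤ n * ((e / 2) * (n : ℝ) ^ 2) :=
        mul_le_mul_of_nonneg_left hn2 hnR.le
      have h5 : (0 : ℝ) ≤ (n : ℝ) ^ 3 * (e / 2) := by positivity
      nlinarith
    exact le_of_mul_le_mul_left h4 hnR

end Pool.Agent.W131.P3
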