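import Pool.Agent.W131.P3.Ext

set_option autoImplicit false
open Finset

namespace Pool.Agent.W131.P3

open Pool.Agent.W163.P3

lemma pc_same (a c : ℕ) : pc a a c = 0 := by
  unfold pc
  rw [if_neg]
  omega

/-- the paths at a fixed vertex inside `Z` -/
lemma zz {V : Type} [Fintype V] [DecidableEq V] {r : V → V → ℕ} (h : Ori r) (w : V)
    (Z : Finset V) :
    3 * ∑ a ∈ Z, ∑ b ∈ Z, pc (r w a) (r w b) (r a b) ≤ 2 * Z.card ^ 2 := by
  have h1 : ∑ a ∈ Z, ∑ b ∈ Z, pc (r w a) (r w b) (r a b)
      + ∑ a ∈ Z, ∑ b ∈ Z, (if r w a = r w b then 1 else 0) ≤ Z.card ^ 2 := by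
    rw [← sum_add_distrib]
    calc _ ≤ ∑ a ∈ Z, ∑ b ∈ Z, 1 := by
          refine sum_le_sum (fun a _ => ?_)
          rw [← sum_add_distrib]
          refine sum_le_sum (fun b _ => ?_)
          by_cases hab : r w a = r w b
          · rw [hab, pc_same]; simp
          · have := pc_le (r w a) (r w b) (r a b)
            simpa [hab] using this
      _ = Z.card ^ 2 := by simp; ring
  have h2 : ∑ a ∈ Z, ∑ b ∈ Z, (if r w a = r w b then 1 else 0)
      = ∑ c ∈ range 3, (Z.filter (fun a => r w a = c)).card ^ 2 := by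
    have : ∀ a ∈ Z, ∀ b ∈ Z, (if r w a = r w b then 1 else 0)
        = ∑ c ∈ range 3, (if r w a = c then 1 else 0) * (if r w b = c then 1 else 0) := by
      intro a _ b _
      have ha := Ori.lt h w a
      rw [Finset.sum_eq_single (r w a)]
      · simp [eq_comm]
      · intro c _ hc; simp [Ne.symm hc]
      · intro hn; exact absurd (mem_range.mpr ha) hn
    rw [sum_congr rfl (fun a ha => sum_congr rfl (fun b hb => this a ha b hb))]
    calc _ = ∑ a ∈ Z, ∑ c ∈ range 3, ∑ b ∈ Z,
            (if r w a = c then 1 else 0) * (if r w b = c then 1 else 0) := by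
          refine sum_congr rfl (fun a _ => ?_)
          rw [sum_comm]
      _ = ∑ c ∈ range 3, ∑ a ∈ Z, ∑ b ∈ Z,
            (if r w a = c then 1 else 0) * (if r w b = c then 1 else 0) := by
          rw [sum_comm]
      _ = _ := by
          refine sum_congr rfl (fun c _ => ?_)
          rw [← Finset.sum_mul_sum, Finset.card_filter]
          ring
  have h3 : ∑ c ∈ range 3, (Z.filter (fun a => r w a = c)).card = Z.card := by
    rw [← Finset.card_eq_sum_card_fiberwise]
    intro a _
    simpa using Ori.lt h w a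
  have h4 := sq_sum_le_card_mul_sum_sq (s := range 3)
    (f := fun c => (Z.filter (fun a => r w a = c)).card)
  rw [h3] at h4
  simp only [card_range, ← h2] at h4
  have h5 : (3 : ℕ) = ((3 : ℕ) : ℕ) := rfl
  have h6 : Z.card ^ 2 ≤ 3 * ∑ a ∈ Z, ∑ b ∈ Z, (if r w a = r w b then 1 else 0) := by
    simpa using h4
  omega

theorem t_C0 : S_C0 := by
  intro V _ _ r h q
  set Y := univ.filter (fun w => q w < 4) with hY
  set Z := univ.filter (fun w : V => 4 ≤ q w) with hZ
  set B := univ.filter (fun w : V => 7 ≤ q w) with hB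
  set g : V → V → ℕ := fun w z =>
    (if q w < 4 ∧ 4 ≤ q z ∧ q z < 7 ∧ r z w ≠ q z - 4 then 1 else 0) with hg
  have hgY : ∑ w ∈ Y, ∑ z, g w z ≤ Fyu r q := by
    unfold Fyu
    exact sum_le_sum_of_subset (filter_subset _ _)
  -- pointwise
  have key : ∀ w ∈ Y, ∀ a b : V, pc (r w a) (r w b) (r a b) ≤
      (if a ∈ Y ∧ b ∈ Y then pc (r w a) (r w b) (r a b) else 0)
      + (if a ∈ Y then g w b + g a b else 0)
      + (if b ∈ Y then g w a + g b a else 0)
      + (if b ∈ B then pc (r b w) (r b a) (r w a) else 0)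
      + (if a ∈ B then pc (r a w) (r a b) (r w b) else 0)
      + (if a ∈ Z ∧ b ∈ Z then pc (r w a) (r w b) (r a b) else 0) := by
    intro w hw a b
    have hw' : q w < 4 := by simpa [hY] using hw
    -- symmetric core
    have core : ∀ a b : V, q a < 4 → 4 ≤ q b → q b < 7 →
        pc (r w a) (r w b) (r a b) ≤ g w b + g a b := by
      intro a b ha hb hb7
      by_cases h1 : r b w = q b - 4
      · by_cases h2 : r b a = q b - 4
        · have : pc (r w a) (r w b) (r a b) = pc (r b w) (r b a) (r w a) := by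
            rw [f23 h, f12 h]
          rw [this, h1, h2, pc_same]
          exact Nat.zero_le _
        · have : g a b = 1 := by simp [hg, ha, hb, hb7, h2]
          rw [this]
          have := pc_le (r w a) (r w b) (r a b)
          omega
      · have : g w b = 1 := by simp [hg, hw', hb, hb7, h1]
        rw [this]
        have := pc_le (r w a) (r w b) (r a b)
        omega
    by_cases ha : q a < 4
    · by_cases hb : q b < 4
      · have h1 : a ∈ Y := by simp [hY, ha]
        have h2 : b ∈ Y := by simp [hY, hb]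
        rw [if_pos (⟨h1, h2⟩ : a ∈ Y ∧ b ∈ Y)]
        omega
      · have h1 : a ∈ Y := by simp [hY, ha]
        by_cases hb7 : q b < 7
        · have := core a b ha (by omega) hb7
          rw [if_pos h1]
          omega
        · have h2 : b ∈ B := by simp [hB]; omega
          rw [if_pos h2]
          have : pc (r w a) (r w b) (r a b) = pc (r b w) (r b a) (r w a) := by
            rw [f23 h, f12 h]
          omega
    · by_cases hb : q b < 4
      · have h1 : b ∈ Y := by simp [hY, hb]
        have hs : pc (r w a) (r w b) (r a b) = pc (r w b) (r w a) (r b a) := f23 h _ _ _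
        by_cases ha7 : q a < 7
        · have := core b a hb (by omega) ha7
          rw [if_pos h1]
          omega
        · have h2 : a ∈ B := by simp [hB]; omega
          rw [if_pos h2]
          have : pc (r w a) (r w b) (r a b) = pc (r a w) (r a b) (r w b) := by
            rw [f12 h]
          omega
      · have h1 : a ∈ Z := by simp [hZ]; omega
        have h2 : b ∈ Z := by simp [hZ]; omega
        rw [if_pos (⟨h1, h2⟩ : a ∈ Z ∧ b ∈ Z)]
        omega
  -- sum up
  have S1 : ∑ w ∈ Y, ∑ a, ∑ b, (if a ∈ Y ∧ b ∈ Y then pc (r w a) (r w b) (r a b) else 0)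
      = TS r Y := by
    unfold TS
    refine sum_congr rfl (fun w _ => ?_)
    calc _ = ∑ a, if a ∈ Y then ∑ b, (if b ∈ Y then pc (r w a) (r w b) (r a b) else 0) else 0 := by
          refine sum_congr rfl (fun a _ => ?_)
          by_cases ha : a ∈ Y <;> simp [ha]
      _ = _ := by
          rw [← Finset.sum_filter, Finset.filter_mem_eq_inter, Finset.univ_inter]
          refine sum_congr rfl (fun a _ => ?_)
          rw [← Finset.sum_filter, Finset.filter_mem_eq_inter, Finset.univ_inter]
  have S2 : ∑ w ∈ Y, ∑ a, ∑ b, (if a ∈ Y then g w b + g a b else 0)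
      ≤ 2 * Y.card * Fyu r q := by
    calc _ = ∑ w ∈ Y, ∑ a ∈ Y, (∑ b, g w b + ∑ b, g a b) := by
          refine sum_congr rfl (fun w _ => ?_)
          calc _ = ∑ a, if a ∈ Y then (∑ b, g w b + ∑ b, g a b) else 0 := by
                refine sum_congr rfl (fun a _ => ?_)
                by_cases ha : a ∈ Y <;> simp [ha, sum_add_distrib]
            _ = _ := by
                rw [← Finset.sum_filter, Finset.filter_mem_eq_inter, Finset.univ_inter]
      _ = Y.card * (∑ w ∈ Y, ∑ b, g w b) + Y.card * (∑ a ∈ Y, ∑ b, g a b) := by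
          simp only [sum_add_distrib, sum_const, smul_eq_mul, ← mul_sum]
      _ ≤ _ := by
          have := Nat.mul_le_mul_left Y.card hgY
          linarith
  have S3 : ∑ w ∈ Y, ∑ a, ∑ b, (if b ∈ Y then g w a + g b a else 0)
      ≤ 2 * Y.card * Fyu r q := by
    have : ∑ w ∈ Y, ∑ a, ∑ b, (if b ∈ Y then g w a + g b a else 0)
        = ∑ w ∈ Y, ∑ a, ∑ b, (if a ∈ Y then g w b + g a b else 0) := by
      refine sum_congr rfl (fun w _ => ?_)
      rw [sum_comm]
    rw [this]; exact S2
  have S4 : ∑ w ∈ Y, ∑ a, ∑ b, (if b ∈ B then pc (r b w) (r b a) (r w a) else 0)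
      ≤ ∑ w ∈ B, tph r (r w) := by
    calc _ ≤ ∑ w, ∑ a, ∑ b, (if b ∈ B then pc (r b w) (r b a) (r w a) else 0) :=
          sum_le_sum_of_subset (filter_subset _ _)
      _ = ∑ w, ∑ b, ∑ a, (if b ∈ B then pc (r b w) (r b a) (r w a) else 0) := by
          refine sum_congr rfl (fun w _ => ?_)
          rw [sum_comm]
      _ = ∑ b, ∑ w, ∑ a, (if b ∈ B then pc (r b w) (r b a) (r w a) else 0) := sum_comm
      _ = ∑ b, if b ∈ B then tph r (r b) else 0 := by
          refine sum_congr rfl (fun b _ => ?_)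
          unfold tph
          by_cases hb : b ∈ B <;> simp [hb]
      _ = _ := by
          rw [← Finset.sum_filter, Finset.filter_mem_eq_inter, Finset.univ_inter]
  have S5 : ∑ w ∈ Y, ∑ a, ∑ b, (if a ∈ B then pc (r a w) (r a b) (r w b) else 0)
      ≤ ∑ w ∈ B, tph r (r w) := by
    have : ∑ w ∈ Y, ∑ a, ∑ b, (if a ∈ B then pc (r a w) (r a b) (r w b) else 0)
        = ∑ w ∈ Y, ∑ a, ∑ b, (if b ∈ B then pc (r b w) (r b a) (r w a) else 0) := by
      refine sum_congr rfl (fun w _ => ?_)
      rw [sum_comm]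
    rw [this]; exact S4
  have S6 : 3 * ∑ w ∈ Y, ∑ a, ∑ b, (if a ∈ Z ∧ b ∈ Z then pc (r w a) (r w b) (r a b) else 0)
      ≤ 2 * Y.card * Z.card ^ 2 := by
    rw [mul_sum]
    calc _ ≤ ∑ w ∈ Y, 2 * Z.card ^ 2 := by
          refine sum_le_sum (fun w _ => ?_)
          refine le_trans (le_of_eq ?_) (zz h w Z)
          congr 1
          calc _ = ∑ a, if a ∈ Z then ∑ b, (if b ∈ Z then pc (r w a) (r w b) (r a b) else 0)
                  else 0 := by
                refine sum_congr rfl (fun a _ => ?_)
                by_cases ha : a ∈ Z <;> simp [ha]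
            _ = _ := by
                rw [← Finset.sum_filter, Finset.filter_mem_eq_inter, Finset.univ_inter]
                refine sum_congr rfl (fun a _ => ?_)
                rw [← Finset.sum_filter, Finset.filter_mem_eq_inter, Finset.univ_inter]
      _ = _ := by simp; ring
  have T : ∑ w ∈ Y, tph r (r w) ≤
      ∑ w ∈ Y, ∑ a, ∑ b, (if a ∈ Y ∧ b ∈ Y then pc (r w a) (r w b) (r a b) else 0)
      + ∑ w ∈ Y, ∑ a, ∑ b, (if a ∈ Y then g w b + g a b else 0)
      + ∑ w ∈ Y, ∑ a, ∑ b, (if b ∈ Y then g w a + g b a else 0)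
      + ∑ w ∈ Y, ∑ a, ∑ b, (if b ∈ B then pc (r b w) (r b a) (r w a) else 0)
      + ∑ w ∈ Y, ∑ a, ∑ b, (if a ∈ B then pc (r a w) (r a b) (r w b) else 0)
      + ∑ w ∈ Y, ∑ a, ∑ b, (if a ∈ Z ∧ b ∈ Z then pc (r w a) (r w b) (r a b) else 0) := by
    simp only [← sum_add_distrib]
    refine sum_le_sum (fun w hw => ?_)
    unfold tph
    exact sum_le_sum (fun a _ => sum_le_sum (fun b _ => key w hw a b))
  linarith

end Pool.Agent.W131.P3
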